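import Pool.Agent.MTR.ZFI
import Pool.Agent.MTC.D2b.B0
import Pool.Agent.MTC.D2b.B1
import Pool.Agent.MTC.D2b.B2
import Pool.Agent.MTC.D2b.B3
import Pool.Agent.MTC.D2b.B4
import Pool.Agent.MTC.D2b.B5
import Pool.Agent.MTC.D2b.S
set_option autoImplicit false
set_option maxRecDepth 100000
open MeasureTheory Set Metric Pool.Agent.MEIS Pool.Agent.MSQ Pool.Agent.MGE Pool.Agent.MGF Pool.Agent.PKD Pool.Agent.MTR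
namespace Pool.Agent.MTC.D2b
theorem ev : (evenL F.f0 && evenL F.f1 && oddL F.f2 && evenL F.f3 && evenL F.f4 && evenL F.f5 && oddL F.f6) = true := by decide +kernel
/-- boxes -/
def L0 : List Bn := [⟨1, 2, 2, 3, 8⟩, ⟨1, 2, 3, 4, 8⟩, ⟨1, 2, 1, 2, 8⟩, ⟨1, 2, 4, 5, 8⟩, ⟨1, 2, 7, 8, 8⟩, ⟨1, 2, 5, 6, 8⟩, ⟨2, 3, 1, 2, 8⟩, ⟨2, 3, 0, 1, 8⟩, ⟨1, 2, 6, 7, 8⟩, ⟨2, 3, 2, 3, 8⟩, ⟨2, 3, 3, 4, 8⟩, ⟨1, 2, 0, 1, 8⟩, ⟨2, 3, 4, 5, 8⟩, ⟨2, 3, 5, 6, 8⟩, ⟨2, 3, 7, 8, 8⟩, ⟨3, 4, 0, 1, 8⟩, ⟨2, 3, 6, 7, 8⟩, ⟨3, 4, 1, 2, 8⟩, ⟨3, 4, 2, 3, 8⟩, ⟨3, 4, 3, 4, 8⟩]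
theorem hL0 : ∀ b ∈ L0, BoxOK 98 1000 143 1000 g false 156568 false b := by
  simp only [L0, List.forall_mem_cons, List.not_mem_nil, false_imp_iff, implies_true, and_true]
  exact ⟨⟨b0, _, rfl, rc8, h0⟩,
    ⟨b1, _, rfl, rc8, h1⟩,
    ⟨b2, _, rfl, rc8, h2⟩,
    ⟨b3, _, rfl, rc8, h3⟩,
    ⟨b4, _, rfl, rc8, h4⟩,
    ⟨b5, _, rfl, rc8, h5⟩,
    ⟨b6, _, rfl, rc8, h6⟩,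
    ⟨b7, _, rfl, rc8, h7⟩,
    ⟨b8, _, rfl, rc8, h8⟩,
    ⟨b9, _, rfl, rc8, h9⟩,
    ⟨b10, _, rfl, rc8, h10⟩,
    ⟨b11, _, rfl, rc8, h11⟩,
    ⟨b12, _, rfl, rc8, h12⟩,
    ⟨b13, _, rfl, rc8, h13⟩,
    ⟨b14, _, rfl, rc8, h14⟩,
    ⟨b15, _, rfl, rc8, h15⟩,
    ⟨b16, _, rfl, rc8, h16⟩,
    ⟨b17, _, rfl, rc8, h17⟩,
    ⟨b18, _, rfl, rc8, h18⟩,
    ⟨b19, _, rfl, rc8, h19⟩⟩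
/-- boxes -/
def L1 : List Bn := [⟨3, 4, 4, 5, 8⟩, ⟨3, 4, 5, 6, 8⟩, ⟨3, 4, 6, 7, 8⟩, ⟨3, 4, 7, 8, 8⟩, ⟨4, 5, 1, 2, 8⟩, ⟨4, 5, 2, 3, 8⟩, ⟨4, 5, 3, 4, 8⟩, ⟨4, 5, 4, 5, 8⟩, ⟨4, 5, 5, 6, 8⟩, ⟨4, 5, 6, 7, 8⟩, ⟨4, 5, 7, 8, 8⟩, ⟨5, 6, 0, 1, 8⟩, ⟨5, 6, 1, 2, 8⟩, ⟨5, 6, 2, 3, 8⟩, ⟨5, 6, 3, 4, 8⟩, ⟨5, 6, 4, 5, 8⟩, ⟨5, 6, 5, 6, 8⟩, ⟨5, 6, 6, 7, 8⟩, ⟨5, 6, 7, 8, 8⟩, ⟨4, 5, 0, 1, 8⟩]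
theorem hL1 : ∀ b ∈ L1, BoxOK 98 1000 143 1000 g false 156568 false b := by
  simp only [L1, List.forall_mem_cons, List.not_mem_nil, false_imp_iff, implies_true, and_true]
  exact ⟨⟨b20, _, rfl, rc8, h20⟩,
    ⟨b21, _, rfl, rc8, h21⟩,
    ⟨b22, _, rfl, rc8, h22⟩,
    ⟨b23, _, rfl, rc8, h23⟩,
    ⟨b24, _, rfl, rc8, h24⟩,
    ⟨b25, _, rfl, rc8, h25⟩,
    ⟨b26, _, rfl, rc8, h26⟩,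
    ⟨b27, _, rfl, rc8, h27⟩,
    ⟨b28, _, rfl, rc8, h28⟩,
    ⟨b29, _, rfl, rc8, h29⟩,
    ⟨b30, _, rfl, rc8, h30⟩,
    ⟨b31, _, rfl, rc8, h31⟩,
    ⟨b32, _, rfl, rc8, h32⟩,
    ⟨b33, _, rfl, rc8, h33⟩,
    ⟨b34, _, rfl, rc8, h34⟩,
    ⟨b35, _, rfl, rc8, h35⟩,
    ⟨b36, _, rfl, rc8, h36⟩,
    ⟨b37, _, rfl, rc8, h37⟩,
    ⟨b38, _, rfl, rc8, h38⟩,
    ⟨b39, _, rfl, rc8, h39⟩⟩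
/-- boxes -/
def L2 : List Bn := [⟨6, 7, 1, 2, 8⟩, ⟨6, 7, 2, 3, 8⟩, ⟨6, 7, 3, 4, 8⟩, ⟨6, 7, 4, 5, 8⟩, ⟨6, 7, 5, 6, 8⟩, ⟨6, 7, 6, 7, 8⟩, ⟨6, 7, 7, 8, 8⟩, ⟨7, 8, 4, 5, 8⟩, ⟨7, 8, 5, 6, 8⟩, ⟨0, 1, 0, 4, 32⟩, ⟨0, 1, 4, 8, 32⟩, ⟨0, 1, 8, 12, 32⟩, ⟨0, 1, 12, 16, 32⟩, ⟨0, 1, 16, 20, 32⟩, ⟨0, 1, 20, 24, 32⟩, ⟨0, 1, 28, 32, 32⟩, ⟨0, 1, 24, 28, 32⟩, ⟨1, 2, 0, 4, 32⟩, ⟨1, 2, 8, 12, 32⟩, ⟨1, 2, 12, 16, 32⟩]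
theorem hL2 : ∀ b ∈ L2, BoxOK 98 1000 143 1000 g false 156568 false b := by
  simp only [L2, List.forall_mem_cons, List.not_mem_nil, false_imp_iff, implies_true, and_true]
  exact ⟨⟨b40, _, rfl, rc8, h40⟩,
    ⟨b41, _, rfl, rc8, h41⟩,
    ⟨b42, _, rfl, rc8, h42⟩,
    ⟨b43, _, rfl, rc8, h43⟩,
    ⟨b44, _, rfl, rc8, h44⟩,
    ⟨b45, _, rfl, rc8, h45⟩,
    ⟨b46, _, rfl, rc8, h46⟩,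
    ⟨b47, _, rfl, rc8, h47⟩,
    ⟨b48, _, rfl, rc8, h48⟩,
    ⟨b49, _, rfl, rc32, h49⟩,
    ⟨b50, _, rfl, rc32, h50⟩,
    ⟨b51, _, rfl, rc32, h51⟩,
    ⟨b52, _, rfl, rc32, h52⟩,
    ⟨b53, _, rfl, rc32, h53⟩,
    ⟨b54, _, rfl, rc32, h54⟩,
    ⟨b55, _, rfl, rc32, h55⟩,
    ⟨b56, _, rfl, rc32, h56⟩,
    ⟨b57, _, rfl, rc32, h57⟩,
    ⟨b58, _, rfl, rc32, h58⟩,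
    ⟨b59, _, rfl, rc32, h59⟩⟩
/-- boxes -/
def L3 : List Bn := [⟨1, 2, 4, 8, 32⟩, ⟨1, 2, 16, 20, 32⟩, ⟨1, 2, 20, 24, 32⟩, ⟨1, 2, 24, 28, 32⟩, ⟨1, 2, 2, 4, 16⟩, ⟨1, 2, 4, 6, 16⟩, ⟨1, 2, 28, 32, 32⟩, ⟨1, 2, 6, 8, 16⟩, ⟨1, 2, 8, 10, 16⟩, ⟨1, 2, 10, 12, 16⟩, ⟨1, 2, 12, 14, 16⟩, ⟨1, 2, 0, 2, 16⟩, ⟨1, 2, 14, 16, 16⟩, ⟨13, 14, 1, 2, 16⟩, ⟨12, 13, 0, 1, 16⟩, ⟨12, 13, 1, 2, 16⟩, ⟨13, 14, 0, 1, 16⟩, ⟨14, 15, 1, 2, 16⟩, ⟨15, 16, 0, 1, 16⟩, ⟨14, 15, 2, 3, 16⟩]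
theorem hL3 : ∀ b ∈ L3, BoxOK 98 1000 143 1000 g false 156568 false b := by
  simp only [L3, List.forall_mem_cons, List.not_mem_nil, false_imp_iff, implies_true, and_true]
  exact ⟨⟨b60, _, rfl, rc32, h60⟩,
    ⟨b61, _, rfl, rc32, h61⟩,
    ⟨b62, _, rfl, rc32, h62⟩,
    ⟨b63, _, rfl, rc32, h63⟩,
    ⟨b64, _, rfl, rc16, h64⟩,
    ⟨b65, _, rfl, rc16, h65⟩,
    ⟨b66, _, rfl, rc32, h66⟩,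
    ⟨b67, _, rfl, rc16, h67⟩,
    ⟨b68, _, rfl, rc16, h68⟩,
    ⟨b69, _, rfl, rc16, h69⟩,
    ⟨b70, _, rfl, rc16, h70⟩,
    ⟨b71, _, rfl, rc16, h71⟩,
    ⟨b72, _, rfl, rc16, h72⟩,
    ⟨b73, _, rfl, rc16, h73⟩,
    ⟨b74, _, rfl, rc16, h74⟩,
    ⟨b75, _, rfl, rc16, h75⟩,
    ⟨b76, _, rfl, rc16, h76⟩,
    ⟨b77, _, rfl, rc16, h77⟩,
    ⟨b78, _, rfl, rc16, h78⟩,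
    ⟨b79, _, rfl, rc16, h79⟩⟩
/-- boxes -/
def L4 : List Bn := [⟨14, 15, 3, 4, 16⟩, ⟨14, 15, 4, 5, 16⟩, ⟨14, 15, 5, 6, 16⟩, ⟨15, 16, 5, 6, 16⟩, ⟨14, 15, 14, 15, 16⟩, ⟨14, 15, 15, 16, 16⟩, ⟨15, 16, 14, 15, 16⟩, ⟨15, 16, 15, 16, 16⟩, ⟨14, 15, 12, 13, 16⟩, ⟨14, 15, 13, 14, 16⟩, ⟨15, 16, 12, 13, 16⟩, ⟨14, 15, 0, 1, 16⟩, ⟨15, 16, 13, 14, 16⟩, ⟨14, 15, 6, 7, 16⟩, ⟨14, 15, 7, 8, 16⟩, ⟨15, 16, 6, 7, 16⟩, ⟨15, 16, 7, 8, 16⟩, ⟨15, 16, 3, 4, 16⟩, ⟨31, 32, 2, 3, 32⟩, ⟨30, 31, 2, 3, 32⟩]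
theorem hL4 : ∀ b ∈ L4, BoxOK 98 1000 143 1000 g false 156568 false b := by
  simp only [L4, List.forall_mem_cons, List.not_mem_nil, false_imp_iff, implies_true, and_true]
  exact ⟨⟨b80, _, rfl, rc16, h80⟩,
    ⟨b81, _, rfl, rc16, h81⟩,
    ⟨b82, _, rfl, rc16, h82⟩,
    ⟨b83, _, rfl, rc16, h83⟩,
    ⟨b84, _, rfl, rc16, h84⟩,
    ⟨b85, _, rfl, rc16, h85⟩,
    ⟨b86, _, rfl, rc16, h86⟩,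
    ⟨b87, _, rfl, rc16, h87⟩,
    ⟨b88, _, rfl, rc16, h88⟩,
    ⟨b89, _, rfl, rc16, h89⟩,
    ⟨b90, _, rfl, rc16, h90⟩,
    ⟨b91, _, rfl, rc16, h91⟩,
    ⟨b92, _, rfl, rc16, h92⟩,
    ⟨b93, _, rfl, rc16, h93⟩,
    ⟨b94, _, rfl, rc16, h94⟩,
    ⟨b95, _, rfl, rc16, h95⟩,
    ⟨b96, _, rfl, rc16, h96⟩,
    ⟨b97, _, rfl, rc16, h97⟩,
    ⟨b98, _, rfl, rc32, h98⟩,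
    ⟨b99, _, rfl, rc32, h99⟩⟩
/-- boxes -/
def L5 : List Bn := [⟨31, 32, 3, 4, 32⟩, ⟨30, 31, 3, 4, 32⟩, ⟨30, 31, 5, 6, 32⟩, ⟨31, 32, 5, 6, 32⟩, ⟨30, 31, 4, 5, 32⟩, ⟨31, 32, 4, 5, 32⟩, ⟨30, 31, 8, 9, 32⟩, ⟨30, 31, 9, 10, 32⟩, ⟨31, 32, 9, 10, 32⟩, ⟨31, 32, 8, 9, 32⟩]
theorem hL5 : ∀ b ∈ L5, BoxOK 98 1000 143 1000 g false 156568 false b := by
  simp only [L5, List.forall_mem_cons, List.not_mem_nil, false_imp_iff, implies_true, and_true]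
  exact ⟨⟨b100, _, rfl, rc32, h100⟩,
    ⟨b101, _, rfl, rc32, h101⟩,
    ⟨b102, _, rfl, rc32, h102⟩,
    ⟨b103, _, rfl, rc32, h103⟩,
    ⟨b104, _, rfl, rc32, h104⟩,
    ⟨b105, _, rfl, rc32, h105⟩,
    ⟨b106, _, rfl, rc32, h106⟩,
    ⟨b107, _, rfl, rc32, h107⟩,
    ⟨b108, _, rfl, rc32, h108⟩,
    ⟨b109, _, rfl, rc32, h109⟩⟩
/-- intervals -/
def LS : List Bn := [⟨0, 1, 0, 0, 16⟩, ⟨1, 2, 0, 0, 16⟩, ⟨2, 3, 0, 0, 16⟩, ⟨3, 4, 0, 0, 16⟩, ⟨4, 5, 0, 0, 16⟩, ⟨5, 6, 0, 0, 16⟩, ⟨6, 7, 0, 0, 16⟩, ⟨7, 8, 0, 0, 16⟩, ⟨8, 9, 0, 0, 16⟩, ⟨9, 10, 0, 0, 16⟩, ⟨10, 11, 0, 0, 16⟩, ⟨11, 12, 0, 0, 16⟩, ⟨12, 13, 0, 0, 16⟩, ⟨13, 14, 0, 0, 16⟩, ⟨14, 15, 0, 0, 16⟩, ⟨15, 16, 0, 0, 16⟩]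
theorem hLS : ∀ b ∈ LS, SideOK 98 1000 143 1000 g F b := by
  simp only [LS, List.forall_mem_cons, List.not_mem_nil, false_imp_iff, implies_true, and_true]
  exact ⟨⟨s0, 7, rfl, t0⟩,
    ⟨s1, 7, rfl, t1⟩,
    ⟨s2, 7, rfl, t2⟩,
    ⟨s3, 7, rfl, t3⟩,
    ⟨s4, 7, rfl, t4⟩,
    ⟨s5, 7, rfl, t5⟩,
    ⟨s6, 7, rfl, t6⟩,
    ⟨s7, 7, rfl, t7⟩,
    ⟨s8, 7, rfl, t8⟩,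
    ⟨s9, 7, rfl, t9⟩,
    ⟨s10, 7, rfl, t10⟩,
    ⟨s11, 7, rfl, t11⟩,
    ⟨s12, 7, rfl, t12⟩,
    ⟨s13, 7, rfl, t13⟩,
    ⟨s14, 7, rfl, t14⟩,
    ⟨s15, 7, rfl, t15⟩⟩
theorem chS : chn 0 1 LS = true := by decide +kernel
/-- all boxes -/
def L : List Bn := L0 ++ L1 ++ L2 ++ L3 ++ L4 ++ L5
theorem hL : ∀ b ∈ L, BoxOK 98 1000 143 1000 g false 156568 false b := by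
  intro b hb
  simp only [L, List.mem_append] at hb
  rcases hb with (((((h | h) | h) | h) | h) | h)
  · exact hL0 b h
  · exact hL1 b h
  · exact hL2 b h
  · exact hL3 b h
  · exact hL4 b h
  · exact hL5 b h
theorem hq : ∀ b ∈ L, 0 < b.q := by
  have h : (L.all fun b => Nat.ble 1 b.q) = true := by decide +kernel
  intro b hb
  exact Nat.le_of_ble_eq_true (List.all_eq_true.mp h b hb)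
theorem hc : covQ 32 L 12 0 32 0 32 = true := by decide +kernel
/-- the certificate of the triangle -/
theorem cert {T : E → ℝ} {β : ℝ} (h : TrHyp T β) (hβ : inR (rgOf 98 1000 143 1000) β) :
    sF0 (FFd F) T + sF1 (FFd F) T + sF2 (FFd F) T + 24000 * payOf false 156568 / (√2 * g.D) ≤ CN T :=
  tri_cert3 ⟨by norm_num [rgOf], by norm_num [rgOf], by norm_num [rgOf]⟩ hg 32 12 (by norm_num) L hq hc hL F (by norm_num [F]) ev tx ty LS chS hLS h hβ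
end Pool.Agent.MTC.D2b
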